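import Pool.Agent.W97.KE.Stm

/-! Project KE: points over the algebraic closure of a finite field. -/

set_option autoImplicit false

open scoped Classical IntermediateField

namespace Pool.Agent.W800.KE

open Pool.Agent.W97.KE Polynomial

theorem frobpow {R : Type} [Monoid R] (l : ℕ) {x : R} {a : ℕ} (h : x ^ l ^ a = x) (b : ℕ) :
    x ^ l ^ (a * b) = x := by
  induction b with
  | zero => simp
  | succ b ih => rw [Nat.mul_succ, pow_add, pow_mul, ih, h]

theorem sub_iff (l : ℕ) [Fact l.Prime] (x : AlgebraicClosure (ZMod l)) :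
    ∃ g : ℕ, 0 < g ∧ ∀ a : AlgebraicClosure (ZMod l), a ∈ (ZMod l)⟮x⟯ ↔ a ^ l ^ g = a := by
  have hl : l.Prime := Fact.out
  have hint : IsIntegral (ZMod l) x := Algebra.IsIntegral.isIntegral x
  have hfd : FiniteDimensional (ZMod l) (ZMod l)⟮x⟯ := IntermediateField.adjoin.finiteDimensional hint
  have hfin : Finite (ZMod l)⟮x⟯ := Module.finite_of_finite (ZMod l)
  let _ : Fintype (ZMod l)⟮x⟯ := Fintype.ofFinite _
  set g := Module.finrank (ZMod l) (ZMod l)⟮x⟯ with hg
  have hg0 : 0 < g := Module.finrank_pos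
  have hcard : Fintype.card (ZMod l)⟮x⟯ = l ^ g := by
    rw [Module.card_eq_pow_finrank (K := ZMod l) (V := (ZMod l)⟮x⟯), ZMod.card]
  refine ⟨g, hg0, ?_⟩
  have hfwd : ∀ a : AlgebraicClosure (ZMod l), a ∈ (ZMod l)⟮x⟯ → a ^ l ^ g = a := by
    intro a ha
    have h1 := FiniteField.pow_card (⟨a, ha⟩ : (ZMod l)⟮x⟯)
    rw [hcard] at h1
    exact congrArg Subtype.val h1
  intro a
  refine ⟨hfwd a, fun ha => ?_⟩
  have hne : (X ^ (l ^ g) - X : (AlgebraicClosure (ZMod l))[X]) ≠ 0 :=
    FiniteField.X_pow_card_sub_X_ne_zero _ (Nat.one_lt_pow hg0.ne' hl.one_lt)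
  set Z := (X ^ (l ^ g) - X : (AlgebraicClosure (ZMod l))[X]).roots.toFinset with hZ
  have hmem : ∀ b, b ∈ Z ↔ b ^ l ^ g = b := by
    intro b
    rw [hZ, Multiset.mem_toFinset, mem_roots hne, IsRoot.def, eval_sub, eval_pow, eval_X,
      sub_eq_zero]
  have hZc : Z.card ≤ l ^ g := by
    calc Z.card ≤ Multiset.card (X ^ (l ^ g) - X : (AlgebraicClosure (ZMod l))[X]).roots :=
          Multiset.toFinset_card_le _
      _ ≤ (X ^ (l ^ g) - X : (AlgebraicClosure (ZMod l))[X]).natDegree := card_roots' _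
      _ = l ^ g := FiniteField.X_pow_card_sub_X_natDegree_eq _ (Nat.one_lt_pow hg0.ne' hl.one_lt)
  set B : Finset (AlgebraicClosure (ZMod l)) :=
    (Finset.univ : Finset (ZMod l)⟮x⟯).map ⟨Subtype.val, Subtype.val_injective⟩ with hB
  have hBc : B.card = l ^ g := by rw [hB, Finset.card_map, Finset.card_univ, hcard]
  have hsub : B ⊆ Z := by
    intro b hb
    rw [hB, Finset.mem_map] at hb
    obtain ⟨c, _, rfl⟩ := hb
    rw [hmem]
    exact hfwd _ c.2
  have heq : B = Z := Finset.eq_of_subset_of_card_le hsub (by rw [hBc]; exact hZc)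
  have h2 : a ∈ B := by rw [heq, hmem]; exact ha
  rw [hB, Finset.mem_map] at h2
  obtain ⟨c, _, rfl⟩ := h2
  exact c.2

/-- the exponents -/
theorem expo {p l k : ℕ} (hp : p.Prime) (hl : l.Prime) (hdvd : p ∣ l - 1) : ∃ n : ℕ, ∀ g : ℕ,
    0 < g → p ^ (n + 1) ∣ l ^ g - 1 → p ^ k ∣ g := by
  refine ⟨l ^ p ^ k, fun g hg hdiv => ?_⟩
  set n := l ^ p ^ k with hn
  have h1 : p ^ (n + 1) ∣ l ^ p ^ n - 1 := by
    have h2 : ((p : ℕ) : ℤ) ∣ (l : ℤ) - 1 := by
      have := Int.natCast_dvd_natCast.2 hdvd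
      rwa [Nat.cast_sub hl.one_le, Nat.cast_one] at this
    have h3 := dvd_sub_pow_of_dvd_sub h2 n
    rw [one_pow] at h3
    have h4 : ((p ^ (n + 1) : ℕ) : ℤ) ∣ ((l ^ p ^ n - 1 : ℕ) : ℤ) := by
      rw [Nat.cast_sub (Nat.one_le_pow _ _ hl.pos)]
      push_cast
      exact h3
    exact Int.natCast_dvd_natCast.1 h4
  have h5 : p ^ (n + 1) ∣ l ^ (g.gcd (p ^ n)) - 1 := by
    rw [← Nat.pow_sub_one_gcd_pow_sub_one]
    exact Nat.dvd_gcd hdiv h1
  obtain ⟨j, hj, hj'⟩ := (Nat.dvd_prime_pow hp).1 (Nat.gcd_dvd_right g (p ^ n))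
  rw [hj'] at h5
  by_contra hcon
  have hjk : j < k := by
    by_contra hcon2
    push Not at hcon2
    apply hcon
    calc p ^ k ∣ p ^ j := pow_dvd_pow p hcon2
      _ = g.gcd (p ^ n) := hj'.symm
      _ ∣ g := Nat.gcd_dvd_left _ _
  have h6 : l ^ p ^ j ≤ l ^ p ^ k :=
    Nat.pow_le_pow_right hl.pos (Nat.pow_le_pow_right hp.pos hjk.le)
  have h7 : 1 < l ^ p ^ j := Nat.one_lt_pow (pow_ne_zero _ hp.ne_zero) hl.one_lt
  have h8 := Nat.le_of_dvd (by omega) h5
  have h9 : n + 1 < p ^ (n + 1) := Nat.lt_pow_self hp.one_lt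
  omega

/-- automorphisms fixing the roots of unity of `p`-power order -/
theorem fix_field {p l : ℕ} [Fact l.Prime] (hp : p.Prime) (hpl : p ≠ l) (hdvd : p ∣ l - 1)
    (σ : AlgebraicClosure (ZMod l) ≃+* AlgebraicClosure (ZMod l))
    (hσ : ∀ (n : ℕ) (z : AlgebraicClosure (ZMod l)), z ^ p ^ (n + 1) = 1 → σ z = z) (k : ℕ)
    (x : AlgebraicClosure (ZMod l)) (hx : x ^ l ^ p ^ k = x) : σ x = x := by
  have hl : l.Prime := Fact.out
  obtain ⟨n, hn⟩ := expo (k := k) hp hl hdvd
  have hne : NeZero ((p ^ (n + 1) : ℕ) : AlgebraicClosure (ZMod l)) := by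
    constructor
    intro h
    rw [CharP.cast_eq_zero_iff (AlgebraicClosure (ZMod l)) l] at h
    exact hpl ((Nat.prime_dvd_prime_iff_eq hl hp).1 (hl.dvd_of_dvd_pow h)).symm
  obtain ⟨ζ, hζ⟩ := HasEnoughRootsOfUnity.exists_primitiveRoot (AlgebraicClosure (ZMod l))
    (p ^ (n + 1))
  obtain ⟨g, hg0, hg⟩ := sub_iff l ζ
  have h1 : ζ ^ l ^ g = ζ := (hg ζ).1 (IntermediateField.mem_adjoin_simple_self _ ζ)
  have hζ0 : ζ ≠ 0 := hζ.ne_zero (pow_ne_zero _ hp.ne_zero)
  have h2 : ζ ^ (l ^ g - 1) = 1 := by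
    have h3 : ζ ^ (l ^ g - 1) * ζ = 1 * ζ := by
      rw [← pow_succ, Nat.sub_add_cancel (Nat.one_le_pow _ _ hl.pos), h1, one_mul]
    exact mul_right_cancel₀ hζ0 h3
  have h4 : p ^ (n + 1) ∣ l ^ g - 1 := hζ.dvd_of_pow_eq_one _ h2
  obtain ⟨m, hm⟩ := hn g hg0 h4
  have h5 : x ∈ (ZMod l)⟮ζ⟯ := by
    rw [hg, hm]
    exact frobpow l hx m
  let Fx : IntermediateField (ZMod l) (AlgebraicClosure (ZMod l)) :=
    { carrier := {a | σ a = a}
      mul_mem' := fun {a b} ha hb => by
        show σ (a * b) = a * b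
        rw [map_mul, ha, hb]
      one_mem' := map_one σ
      add_mem' := fun {a b} ha hb => by
        show σ (a + b) = a + b
        rw [map_add, ha, hb]
      zero_mem' := map_zero σ
      algebraMap_mem' := fun r => by
        show σ (algebraMap _ _ r) = algebraMap _ _ r
        exact RingHom.congr_fun (Subsingleton.elim
          ((σ : AlgebraicClosure (ZMod l) →+* AlgebraicClosure (ZMod l)).comp
            (algebraMap (ZMod l) (AlgebraicClosure (ZMod l)))) (algebraMap _ _)) r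
      inv_mem' := fun a ha => by
        show σ a⁻¹ = a⁻¹
        rw [map_inv₀, ha] }
  have h6 : (ZMod l)⟮ζ⟯ ≤ Fx := by
    rw [IntermediateField.adjoin_simple_le_iff]
    exact hσ n ζ hζ.pow_eq_one
  exact h6 h5

theorem some_ext {W : WeierstrassCurve ℤ} {F : Type} [Field F] (x y x' y' : F)
    (h : (W.baseChange F).toAffine.Nonsingular x y)
    (h' : (W.baseChange F).toAffine.Nonsingular x' y') (hx : x' = x) (hy : y' = y) :
    (WeierstrassCurve.Affine.Point.some x' y' h' : Pt W F) =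
      WeierstrassCurve.Affine.Point.some x y h := by
  subst hx
  subst hy
  rfl

theorem some_inj {W : WeierstrassCurve ℤ} {F : Type} [Field F] (x y x' y' : F)
    (h : (W.baseChange F).toAffine.Nonsingular x y)
    (h' : (W.baseChange F).toAffine.Nonsingular x' y')
    (e : (WeierstrassCurve.Affine.Point.some x' y' h' : Pt W F) =
      WeierstrassCurve.Affine.Point.some x y h) : x' = x ∧ y' = y :=
  WeierstrassCurve.Affine.Point.some.inj e

theorem mapPt_some {W : WeierstrassCurve ℤ} {F : Type} [Field F] (f : F →+* F) (x y : F)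
    (h : (W.baseChange F).toAffine.Nonsingular x y) :
    mapPt W f (WeierstrassCurve.Affine.Point.some x y h) =
      WeierstrassCurve.Affine.Point.some x y h ↔ f x = x ∧ f y = y := by
  have h0 : (W.baseChange F).toAffine.Nonsingular (f x) (f y) :=
    (WeierstrassCurve.Affine.baseChange_nonsingular _ f.toIntAlgHom.injective _ _).2 h
  have h2 : mapPt W f (WeierstrassCurve.Affine.Point.some x y h) =
        (WeierstrassCurve.Affine.Point.some (f x) (f y) h0 : Pt W F) := rfl
  rw [h2]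
  constructor
  · intro h1
    exact some_inj _ _ _ _ h h0 h1
  · rintro ⟨h1, h3⟩
    exact some_ext _ _ _ _ h h0 h1 h3

/-- the action of the powers of Frobenius -/
theorem iter_frob (W : WeierstrassCurve ℤ) (l : ℕ) [Fact l.Prime] (N : ℕ)
    (P : Pt W (AlgebraicClosure (ZMod l))) :
    (mapPt W (frobenius (AlgebraicClosure (ZMod l)) l))^[N] P =
      mapPt W (iterateFrobenius (AlgebraicClosure (ZMod l)) l N) P := by
  induction N generalizing P with
  | zero =>
    rw [Function.iterate_zero, id]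
    have : iterateFrobenius (AlgebraicClosure (ZMod l)) l 0 = RingHom.id _ := by
      ext x
      simp
    rw [this, mapPt_id]
  | succ N ih =>
    rw [Function.iterate_succ, Function.comp_apply, ih, mapPt_comp]
    congr 2
    ext x
    simp only [RingHom.comp_apply, frobenius_def, iterateFrobenius_def]
    rw [← pow_mul, pow_succ']

theorem frob_tors (W : WeierstrassCurve ℤ) (p l : ℕ) [Fact l.Prime]
    (h : ∀ P : Pt W (AlgebraicClosure (ZMod l)), p • P = 0 →
      mapPt W (frobenius (AlgebraicClosure (ZMod l)) l) P = P) (k : ℕ) :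
    ∀ P : Pt W (AlgebraicClosure (ZMod l)), p ^ (k + 1) • P = 0 →
      (mapPt W (frobenius (AlgebraicClosure (ZMod l)) l))^[p ^ k] P = P := by
  set T := mapPt W (frobenius (AlgebraicClosure (ZMod l)) l) with hT
  have hadd : ∀ (N : ℕ) (P Q : Pt W (AlgebraicClosure (ZMod l))),
      T^[N] (P + Q) = T^[N] P + T^[N] Q := fun N P Q => iterate_map_add T N P Q
  have hsm : ∀ (N m : ℕ) (P : Pt W (AlgebraicClosure (ZMod l))),
      T^[N] (m • P) = m • T^[N] P := fun N m P => iterate_map_nsmul T N P m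
  induction k with
  | zero =>
    intro P hP
    rw [zero_add, pow_one] at hP
    rw [pow_zero, Function.iterate_one]
    exact h P hP
  | succ k ih =>
    intro P hP
    have h1 : T^[p ^ k] (p • P) = p • P := by
      apply ih
      rw [← mul_smul, ← pow_succ]
      exact hP
    set R := T^[p ^ k] P - P with hR
    have hpR : p • R = 0 := by
      rw [hR, smul_sub, ← hsm, h1, sub_self]
    have hTR : T R = R := h R hpR
    have hTR' : ∀ N, T^[N] R = R := fun N => Function.iterate_fixed hTR N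
    have hstep : ∀ j : ℕ, (T^[p ^ k])^[j] P = P + j • R := by
      intro j
      induction j with
      | zero => simp
      | succ j ihj =>
        rw [Function.iterate_succ_apply', ihj, hadd, hsm, hTR']
        have : T^[p ^ k] P = P + R := by rw [hR]; abel
        rw [this, succ_nsmul]
        abel
    have h2 := hstep p
    rw [hpR, add_zero, ← Function.iterate_mul] at h2
    rw [pow_succ]
    exact h2

theorem finite_order (W : WeierstrassCurve ℤ) (l : ℕ) [Fact l.Prime]
    (P : Pt W (AlgebraicClosure (ZMod l))) : ∃ M : ℕ, 0 < M ∧ M • P = 0 := by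
  have hl : l.Prime := Fact.out
  -- a power of Frobenius fixing the point
  obtain ⟨N, hN0, hN⟩ : ∃ N : ℕ, 0 < N ∧
      mapPt W (iterateFrobenius (AlgebraicClosure (ZMod l)) l N) P = P := by
    rcases P with _ | ⟨x, y, hxy⟩
    · exact ⟨1, one_pos, map_zero _⟩
    · obtain ⟨a, ha0, ha⟩ := sub_iff l x
      obtain ⟨b, hb0, hb⟩ := sub_iff l y
      have hx : x ^ l ^ a = x := (ha x).1 (IntermediateField.mem_adjoin_simple_self _ x)
      have hy : y ^ l ^ b = y := (hb y).1 (IntermediateField.mem_adjoin_simple_self _ y)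
      refine ⟨a * b, Nat.mul_pos ha0 hb0, ?_⟩
      rw [mapPt_some]
      rw [iterateFrobenius_def, iterateFrobenius_def]
      refine ⟨frobpow l hx b, ?_⟩
      rw [mul_comm]
      exact frobpow l hy a
  set φ := mapPt W (iterateFrobenius (AlgebraicClosure (ZMod l)) l N) with hφ
  have hSfin : {x : AlgebraicClosure (ZMod l) | x ^ l ^ N = x}.Finite := by
    have hne : (X ^ (l ^ N) - X : (AlgebraicClosure (ZMod l))[X]) ≠ 0 :=
      FiniteField.X_pow_card_sub_X_ne_zero _ (Nat.one_lt_pow hN0.ne' hl.one_lt)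
    apply ((X ^ (l ^ N) - X : (AlgebraicClosure (ZMod l))[X]).roots.toFinset.finite_toSet).subset
    intro b hb
    rw [Finset.mem_coe, Multiset.mem_toFinset, mem_roots hne, IsRoot.def, eval_sub, eval_pow,
      eval_X, sub_eq_zero]
    exact hb
  have hfix : {Q : Pt W (AlgebraicClosure (ZMod l)) | φ Q = Q}.Finite := by
    let f : Pt W (AlgebraicClosure (ZMod l)) →
        Option (AlgebraicClosure (ZMod l) × AlgebraicClosure (ZMod l)) := fun Q =>
      match Q with
      | .zero => none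
      | .some x y _ => some (x, y)
    have hinj : Function.Injective f := by
      intro Q Q' hQ
      rcases Q with _ | ⟨x, y, hxy⟩ <;> rcases Q' with _ | ⟨x', y', hxy'⟩
      · rfl
      · exact absurd hQ (by simp [f])
      · exact absurd hQ (by simp [f])
      · simp only [f, Option.some.injEq, Prod.mk.injEq] at hQ
        obtain ⟨rfl, rfl⟩ := hQ
        rfl
    have hT : (insert none (some '' ({x : AlgebraicClosure (ZMod l) | x ^ l ^ N = x} ×ˢ
        {x : AlgebraicClosure (ZMod l) | x ^ l ^ N = x}))).Finite :=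
      ((hSfin.prod hSfin).image _).insert _
    apply (hT.preimage hinj.injOn).subset
    intro Q hQ
    rcases Q with _ | ⟨x, y, hxy⟩
    · left; rfl
    · right
      have h1 : φ (WeierstrassCurve.Affine.Point.some x y hxy) =
        WeierstrassCurve.Affine.Point.some x y hxy := hQ
      rw [hφ, mapPt_some, iterateFrobenius_def, iterateFrobenius_def] at h1
      exact ⟨(x, y), ⟨h1.1, h1.2⟩, rfl⟩
  have hmem : ∀ n : ℕ, n • P ∈ {Q : Pt W (AlgebraicClosure (ZMod l)) | φ Q = Q} := by
    intro n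
    show φ (n • P) = n • P
    rw [map_nsmul, hN]
  obtain ⟨a, b, hab, heq⟩ := hfix.exists_lt_map_eq_of_forall_mem hmem
  refine ⟨b - a, by omega, ?_⟩
  have h2 : b • P = a • P + (b - a) • P := by
    rw [← add_smul, Nat.add_sub_cancel' hab.le]
  have heq' : a • P = b • P := heq
  rw [h2] at heq'
  exact left_eq_add.1 heq'

theorem s_fbar : S_FBAR := by
  intro W p l _ hp hpl hdvd hdvd2 hfrob
  refine ⟨?_, ?_⟩
  · intro P
    obtain ⟨M, hM0, hM⟩ := finite_order W l P
    obtain ⟨e, N, hN, hMN⟩ := Nat.exists_eq_pow_mul_and_not_dvd hM0.ne' p hp.ne_one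
    have hcop : Nat.Coprime N p := ((Nat.Prime.coprime_iff_not_dvd hp).2 hN).symm
    have hcop2 : IsCoprime ((p ^ e : ℕ) : ℤ) (N : ℤ) := by
      rw [Nat.isCoprime_iff_coprime]
      exact (hcop.pow_right e).symm
    obtain ⟨u, v, huv⟩ := hcop2
    have hzero : ((p ^ e : ℕ) : ℤ) • ((N : ℤ) • P) = 0 := by
      rw [← mul_smul, ← Nat.cast_mul, natCast_zsmul, ← hMN, hM]
    refine ⟨(v * N) • P, (u * ((p ^ e : ℕ) : ℤ)) • P, ?_, ⟨e, ?_⟩, ⟨N, hcop, ?_⟩⟩
    · rw [← add_smul, add_comm, huv, one_smul]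
    · rw [← natCast_zsmul, mul_smul, smul_comm, hzero, smul_zero]
    · rw [← natCast_zsmul, mul_smul, smul_comm, smul_comm (N : ℤ), hzero, smul_zero]
  · rintro σ hσ P ⟨k, hk⟩
    have h1 : p ^ (k + 1) • P = 0 := by rw [pow_succ', mul_smul, hk, smul_zero]
    have h2 := frob_tors W p l hfrob k P h1
    rw [iter_frob] at h2
    rcases P with _ | ⟨x, y, hxy⟩
    · exact map_zero _
    · rw [mapPt_some, iterateFrobenius_def, iterateFrobenius_def] at h2
      rw [mapPt_some]
      exact ⟨fix_field hp hpl hdvd σ hσ k x h2.1, fix_field hp hpl hdvd σ hσ k y h2.2⟩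

end Pool.Agent.W800.KE
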