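import Pool.Agent.W97.KE.Stm

/-! Project KE: the local condition at `l`. -/

set_option autoImplicit false

open scoped Classical

namespace Pool.Agent.W800.KE

open Pool.Agent.W97.KE

section
variable {k Ω : Type} [Field k] [Field Ω] [Algebra k Ω]

/-- compatibility -/
def Rel (ι : Qb →+* Ω) (x : GQ) (τ : Ω ≃ₐ[k] Ω) : Prop := ∀ y : Qb, ι (x y) = τ (ι y)

theorem Rel.mul {ι : Qb →+* Ω} {x x' : GQ} {τ τ' : Ω ≃ₐ[k] Ω} (h : Rel ι x τ)
    (h' : Rel ι x' τ') : Rel ι (x * x') (τ * τ') := by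
  intro y
  rw [AlgEquiv.mul_apply, AlgEquiv.mul_apply, h, h']

theorem Rel.inv {ι : Qb →+* Ω} {x : GQ} {τ : Ω ≃ₐ[k] Ω} (h : Rel ι x τ) :
    Rel ι x⁻¹ τ⁻¹ := by
  intro y
  apply τ.injective
  rw [← h]
  have h1 : x (x⁻¹ y) = y := x.apply_symm_apply y
  have h2 : τ (τ⁻¹ (ι y)) = ι y := τ.apply_symm_apply (ι y)
  rw [h1, h2]

theorem Rel.one (ι : Qb →+* Ω) : Rel ι (1 : GQ) (1 : Ω ≃ₐ[k] Ω) := fun _ => rfl

theorem Rel.pow {ι : Qb →+* Ω} {x : GQ} {τ : Ω ≃ₐ[k] Ω} (h : Rel ι x τ) (n : ℕ) :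
    Rel ι (x ^ n) (τ ^ n) := by
  induction n with
  | zero => simpa using Rel.one ι
  | succ n ih => rw [pow_succ, pow_succ]; exact ih.mul h

theorem Rel.act {ι : Qb →+* Ω} {x : GQ} {τ : Ω ≃ₐ[k] Ω} (h : Rel ι x τ)
    (W : WeierstrassCurve ℤ) (R : Pt W Qb) :
    mapPt W ι (act W x R) = mapPt W (τ : Ω →+* Ω) (mapPt W ι R) := by
  unfold Pool.Agent.W97.KE.act
  rw [mapPt_comp, mapPt_comp]
  congr 2
  ext y
  exact h y

theorem normA (a : Algebra ℚ (AlgebraicClosure ℚ)) : @Normal ℚ (AlgebraicClosure ℚ) _ _ a := by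
  have e : a = AlgebraicClosure.instAlgebra ℚ := Subsingleton.elim _ _
  subst e
  exact @IsAlgClosure.normal ℚ (AlgebraicClosure ℚ) _ _ (AlgebraicClosure.instAlgebra ℚ)
    inferInstance

theorem exists_rel [CharZero Ω] (ι : Qb →+* Ω) (τ : Ω ≃ₐ[k] Ω) : ∃ x : GQ, Rel ι x τ := by
  let _ : Algebra Qb Ω := ι.toAlgebra
  have _ : IsScalarTower ℚ Qb Ω := IsScalarTower.of_algebraMap_eq' (Subsingleton.elim _ _)
  have _ : Normal ℚ Qb := normA _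
  let τ' : Ω ≃ₐ[ℚ] Ω := AlgEquiv.ofRingEquiv (f := (τ : Ω ≃+* Ω)) (by
    intro r
    simp)
  refine ⟨τ'.restrictNormal Qb, fun y => ?_⟩
  exact τ'.restrictNormal_commutes Qb y

end

theorem cyc (g : GQ) (l : ℕ) (hl : 0 < l) : ∃ a : ℕ, ∀ z : Qb, z ^ l = 1 → g z = z ^ a := by
  have : NeZero l := ⟨hl.ne'⟩
  obtain ⟨ζ, hζ⟩ := HasEnoughRootsOfUnity.exists_primitiveRoot Qb l
  have h1 : (g ζ) ^ l = 1 := by rw [← map_pow, hζ.pow_eq_one, map_one]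
  obtain ⟨a, _, ha⟩ := hζ.eq_pow_of_pow_eq_one h1
  refine ⟨a, fun z hz => ?_⟩
  obtain ⟨j, _, rfl⟩ := hζ.eq_pow_of_pow_eq_one hz
  rw [map_pow, ← ha, ← pow_mul, ← pow_mul, mul_comm]

theorem root_in {Ω : Type} [Field Ω] (ι : Qb →+* Ω) (n : ℕ) (hn : 0 < n) (z : Ω)
    (hz : z ^ n = 1) : ∃ z' : Qb, z' ^ n = 1 ∧ ι z' = z := by
  have : NeZero n := ⟨hn.ne'⟩
  obtain ⟨ζ, hζ⟩ := HasEnoughRootsOfUnity.exists_primitiveRoot Qb n
  have h2 : IsPrimitiveRoot (ι ζ) n := hζ.map_of_injective ι.injective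
  obtain ⟨j, _, rfl⟩ := h2.eq_pow_of_pow_eq_one hz
  exact ⟨ζ ^ j, by rw [← pow_mul, mul_comm, pow_mul, hζ.pow_eq_one, one_pow], by rw [map_pow]⟩

theorem pow_fix (x : GQ) (l : ℕ) (hl : l.Prime) (z : Qb) (hz : z ^ l = 1) :
    (x ^ (l - 1)) z = z := by
  obtain ⟨a, ha⟩ := cyc x l hl.pos
  have h1 : ∀ n : ℕ, (x ^ n) z = z ^ (a ^ n) := by
    intro n
    induction n with
    | zero => simp
    | succ n ih =>
      rw [pow_succ', AlgEquiv.mul_apply, ih, map_pow, ha z hz, ← pow_mul, pow_succ', mul_comm]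
  rw [h1]
  by_cases hz1 : z = 1
  · rw [hz1, one_pow]
  have hla : ¬ l ∣ a := by
    rintro ⟨c, rfl⟩
    have h2 := ha z hz
    rw [pow_mul, hz, one_pow] at h2
    exact hz1 (x.injective (by rw [h2, map_one]))
  have hmod : a ^ (l - 1) ≡ 1 [MOD l] := by
    have h3 := Nat.ModEq.pow_totient ((Nat.Prime.coprime_iff_not_dvd hl).2 hla).symm
    rwa [Nat.totient_prime hl] at h3
  have ha1 : 1 ≤ a ^ (l - 1) := Nat.one_le_iff_ne_zero.2 (pow_ne_zero _ (by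
    rintro rfl
    exact hla (dvd_zero l)))
  obtain ⟨c, hc⟩ := (Nat.modEq_iff_dvd' ha1).1 hmod.symm
  have h4 : a ^ (l - 1) = l * c + 1 := by omega
  rw [h4, pow_succ, pow_mul, hz, one_pow, one_mul]

theorem mem_Hl {p l : ℕ} (hp : p.Prime) (hl : l.Prime) (hpl : p ≠ l) {x : GQ} (hx : x ∈ H p 1)
    (hxl : ∀ z : Qb, z ^ l = 1 → x z = z) : x ∈ H p l := by
  intro n z hz
  have hz0 : z ≠ 0 := by
    rintro rfl
    rw [zero_pow (mul_ne_zero hl.ne_zero (pow_ne_zero _ hp.ne_zero))] at hz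
    exact zero_ne_one hz
  have hcop : IsCoprime (l : ℤ) ((p ^ (n + 1) : ℕ) : ℤ) := by
    rw [Nat.isCoprime_iff_coprime]
    exact Nat.Coprime.pow_right _ ((Nat.coprime_primes hl hp).2 hpl.symm)
  obtain ⟨u, v, huv⟩ := hcop
  have h1 : x (z ^ l) = z ^ l := by
    apply hx n
    rw [one_mul, ← pow_mul, hz]
  have h2 : x (z ^ (p ^ (n + 1))) = z ^ (p ^ (n + 1)) := by
    apply hxl
    rw [← pow_mul, mul_comm, hz]
  have h3 : z = (z ^ l) ^ u * (z ^ (p ^ (n + 1))) ^ v := by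
    rw [← zpow_natCast z l, ← zpow_natCast z (p ^ (n + 1)), ← zpow_mul, ← zpow_mul,
      ← zpow_add₀ hz0]
    have h4 : (l : ℤ) * u + ((p ^ (n + 1) : ℕ) : ℤ) * v = 1 := by
      rw [← huv]
      ring
    rw [h4, zpow_one]
  conv_lhs => rw [h3]
  rw [map_mul, map_zpow₀, map_zpow₀, h1, h2, ← h3]

theorem inner (W : WeierstrassCurve ℤ) (p m : ℕ) (d : H p m → Pt W Qb)
    (hd : IsCocycle W p m d) (h x : H p m) :
    cact W p m h.1 d x = d x + (act W x.1 (d h) - d h) := by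
  have h0 : d 1 = 0 := by
    have := hd.mul 1 1
    rw [mul_one] at this
    have h2 : act W (1 : H p m).1 (d 1) = d 1 := act_one W _
    rw [h2] at this
    simpa using this
  have h1 : d h + act W h.1 (d h⁻¹) = 0 := by rw [← hd.mul, mul_inv_cancel, h0]
  rw [cact_apply W p m h.1 d x (h⁻¹ * x * h) rfl, mul_assoc, hd.mul, hd.mul, map_add]
  have h2 : act W h.1 (act W (h⁻¹).1 (d x + act W x.1 (d h))) = d x + act W x.1 (d h) :=
    act_act_inv W h.1 _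
  rw [h2]
  have h3 : act W h.1 (d h⁻¹) = - d h := by
    rw [eq_neg_iff_add_eq_zero, add_comm]
    exact h1
  rw [h3]
  abel

theorem s_locl : S_LOCL := by
  intro W p l _ hp hpl hdvd hdvd2 hb hc d hd hloc g τ0 hcyc ι
  have hl : l.Prime := Fact.out
  obtain ⟨P0, hP0⟩ := hloc ι
  -- elements related to elements of `H p 1` fix the roots of unity
  have hfix : ∀ (x : GQ) (τ : AlgebraicClosure ℚ_[l] ≃ₐ[ℚ_[l]] AlgebraicClosure ℚ_[l]),
      x ∈ H p 1 → Rel ι x τ →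
      ∀ (n : ℕ) (z : AlgebraicClosure ℚ_[l]), z ^ p ^ (n + 1) = 1 → τ z = z := by
    intro x τ hx hr n z hz
    obtain ⟨z', hz', rfl⟩ := root_in ι _ (pow_pos hp.pos _) z hz
    rw [← hr, hx n z' (by rw [one_mul]; exact hz')]
  -- (A)
  have hA : ∀ (x : GQ) (τ : AlgebraicClosure ℚ_[l] ≃ₐ[ℚ_[l]] AlgebraicClosure ℚ_[l]),
      x ∈ H p 1 → Rel ι x τ → ∀ (Q : Pt W (AlgebraicClosure ℚ_[l])) (k : ℕ), p ^ k • Q = 0 →
      mapPt W (τ : AlgebraicClosure ℚ_[l] →+* AlgebraicClosure ℚ_[l]) Q = Q := by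
    intro x τ hx hr Q k hQ
    apply hc τ (hfix x τ hx hr) Q k
    rw [smul_sub, ← map_nsmul, hQ, map_zero, sub_zero]
  -- (B)
  have hB : ∀ (x : H p 1) (τ : AlgebraicClosure ℚ_[l] ≃ₐ[ℚ_[l]] AlgebraicClosure ℚ_[l]),
      Rel ι x.1 τ → (∀ z : Qb, z ^ l = 1 → x.1 z = z) → mapPt W ι (d x) = 0 := by
    intro x τ hr hxl
    have hxl' := mem_Hl hp hl hpl x.2 hxl
    have h1 := hP0 ⟨x.1, hxl'⟩ τ hr
    have h2 : resc W p (one_dvd l) d ⟨x.1, hxl'⟩ = d x := rfl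
    rw [h2] at h1
    obtain ⟨k, hk⟩ := hd.tors x
    have h3 := hc τ (hfix x.1 τ x.2 hr) P0 k (by rw [← h1, ← map_nsmul, hk, map_zero])
    rw [h1, h3, sub_self]
  -- (C)
  have hC : ∀ (x x' : H p 1) (τ : AlgebraicClosure ℚ_[l] ≃ₐ[ℚ_[l]] AlgebraicClosure ℚ_[l]),
      Rel ι x.1 τ → mapPt W ι (d (x * x')) = mapPt W ι (d x) + mapPt W ι (d x') := by
    intro x x' τ hr
    rw [hd.mul, map_add, hr.act]
    obtain ⟨k, hk⟩ := hd.tors x'
    rw [hA x.1 τ x.2 hr _ k (by rw [← map_nsmul, hk, map_zero])]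
  have h0 : mapPt W ι (d 1) = 0 := hB 1 1 (Rel.one ι) (fun z _ => rfl)
  have hCpow : ∀ (x : H p 1) (τ : AlgebraicClosure ℚ_[l] ≃ₐ[ℚ_[l]] AlgebraicClosure ℚ_[l]),
      Rel ι x.1 τ → ∀ n : ℕ, mapPt W ι (d (x ^ n)) = n • mapPt W ι (d x) := by
    intro x τ hr n
    induction n with
    | zero => rw [pow_zero, h0, zero_smul]
    | succ n ih => rw [pow_succ', hC x _ τ hr, ih, succ_nsmul, add_comm]
  -- (D)
  have hD : ∀ (x : H p 1) (τ : AlgebraicClosure ℚ_[l] ≃ₐ[ℚ_[l]] AlgebraicClosure ℚ_[l]),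
      Rel ι x.1 τ → p • mapPt W ι (d x) = 0 := by
    intro x τ hr
    have h1 : (l - 1) • mapPt W ι (d x) = 0 := by
      rw [← hCpow x τ hr]
      apply hB (x ^ (l - 1)) (τ ^ (l - 1)) (hr.pow _)
      intro z hz
      exact pow_fix x.1 l hl z hz
    obtain ⟨k, hk⟩ := hd.tors x
    have h2 : p ^ k • mapPt W ι (d x) = 0 := by rw [← map_nsmul, hk, map_zero]
    have h3 := addOrderOf_dvd_of_nsmul_eq_zero h1
    have h4 := addOrderOf_dvd_of_nsmul_eq_zero h2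
    obtain ⟨j, hj, hj'⟩ := (Nat.dvd_prime_pow hp).1 h4
    have h5 : j ≤ 1 := by
      by_contra hcon
      push Not at hcon
      apply hdvd2
      rw [hj'] at h3
      exact (pow_dvd_pow p (by omega)).trans h3
    apply addOrderOf_dvd_iff_nsmul_eq_zero.1
    rw [hj']
    calc p ^ j ∣ p ^ 1 := pow_dvd_pow p h5
      _ = p := pow_one p
  -- the element `g0`
  obtain ⟨g0, hg0⟩ := exists_rel ι τ0
  have hh : g0⁻¹ * g ∈ H p 1 := by
    intro n z hz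
    rw [one_mul] at hz
    obtain ⟨u, hu1, hu2⟩ := hcyc n
    have h1 : g0 z = g z := by
      apply ι.injective
      rw [hg0, hu2 (ι z) (by rw [← map_pow, hz, map_one]), hu1 z hz, map_pow]
    rw [AlgEquiv.mul_apply, ← h1]
    exact g0.symm_apply_apply z
  set h : H p 1 := ⟨g0⁻¹ * g, hh⟩ with hh'
  have hgh : g = g0 * h.1 := by rw [hh', mul_inv_cancel_left]
  refine ⟨mapPt W ι (act W g0 (d h)), fun x τ hr => ?_⟩
  have hr' : Rel ι x.1 τ := hr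
  have n1 : g0⁻¹ * x.1 * g0 ∈ H p 1 := by
    simpa using (inferInstance : (H p 1).Normal).conj_mem x.1 x.2 g0⁻¹
  set x' : H p 1 := ⟨g0⁻¹ * x.1 * g0, n1⟩ with hx'
  have hrx' : Rel ι x'.1 (τ0⁻¹ * τ * τ0) := (hg0.inv.mul hr').mul hg0
  have e1 : mapPt W ι (d x') = mapPt W ι (d x) := by
    have h1 : mapPt W ι (d (x' * x⁻¹)) = 0 := by
      apply hB (x' * x⁻¹) (τ0⁻¹ * τ * τ0 * τ⁻¹) (hrx'.mul hr'.inv)
      intro z hz
      obtain ⟨a, ha⟩ := cyc g0 l hl.pos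
      obtain ⟨b, hbb⟩ := cyc x.1 l hl.pos
      have hw : (x.1⁻¹ z) ^ l = 1 := by rw [← map_pow, hz, map_one]
      have h2 : x.1 (g0 (x.1⁻¹ z)) = g0 (x.1 (x.1⁻¹ z)) := by
        rw [ha _ hw, hbb _ hw, map_pow, map_pow, hbb _ hw, ha _ hw, ← pow_mul, ← pow_mul,
          mul_comm]
      have h3 : x.1 (x.1⁻¹ z) = z := x.1.apply_symm_apply z
      have h4 : (x' * x⁻¹).1 z = g0⁻¹ (x.1 (g0 (x.1⁻¹ z))) := rfl
      rw [h4, h2, h3]
      exact g0.symm_apply_apply z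
    have h5 : mapPt W ι (d (x' * x⁻¹ * x)) = mapPt W ι (d (x' * x⁻¹)) + mapPt W ι (d x) :=
      hC (x' * x⁻¹) x (τ0⁻¹ * τ * τ0 * τ⁻¹) (hrx'.mul hr'.inv)
    rw [inv_mul_cancel_right, h1, zero_add] at h5
    exact h5
  have e2 : mapPt W ι (act W g0 (d x')) = mapPt W ι (d x) := by
    rw [hg0.act, hb τ0 _ (hD x' _ hrx'), e1]
  have e3 : cact W p 1 g d x = act W g0 (d x' + (act W x'.1 (d h) - d h)) := by
    conv_lhs => rw [hgh]
    rw [cact_mul, cact_apply W p 1 g0 _ x x' rfl, inner W p 1 d hd h x']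
  have e4 : act W g0 (act W x'.1 (d h)) = act W x.1 (act W g0 (d h)) := by
    rw [← act_mul, ← act_mul]
    congr 2
    show g0 * (g0⁻¹ * x.1 * g0) = x.1 * g0
    group
  have e5 : act W g0 (d x' + (act W x'.1 (d h) - d h)) =
      act W g0 (d x') + (act W x.1 (act W g0 (d h)) - act W g0 (d h)) := by
    rw [map_add, map_sub, e4]
  rw [Pi.sub_apply, e3, e5, map_sub, map_add, map_sub, e2, hr'.act]
  abel

end Pool.Agent.W800.KE
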